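import Pool.Agent.Helper72.CV.A4

set_option autoImplicit false

/-! # A3: Cauchy formula with the imaginary part, square root singularities -/

namespace Pool.Agent.Helper72.CV.A3

open Pool.Agent.Helper36.CV Complex Filter Topology MeasureTheory Set
open Pool.Agent.Helper72.CV.A4

noncomputable section

/-- the weight -/
def wt (S : Finset ℝ) (z : ℂ) : ℝ :=
  (1 + Real.log (1 + ‖z‖)) * (1 + ‖z‖) ^ (-(3 / 2) : ℝ) * wS S z

theorem one_le_log (z : ℂ) : 1 ≤ 1 + Real.log (1 + ‖z‖) := by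
  have : 0 ≤ Real.log (1 + ‖z‖) := Real.log_nonneg (by have := norm_nonneg z; linarith)
  linarith

theorem one_le_wS (S : Finset ℝ) (z : ℂ) : 1 ≤ wS S z := by
  unfold wS
  have : 0 ≤ ∑ s ∈ S, ‖z - ((s : ℝ) : ℂ)‖ ^ (-(1 / 2) : ℝ) :=
    Finset.sum_nonneg fun _ _ => by positivity
  linarith

theorem rpow_le_wt (S : Finset ℝ) (z : ℂ) : (1 + ‖z‖) ^ (-(3 / 2) : ℝ) ≤ wt S z := by
  unfold wt
  have h1 := one_le_log z
  have h2 := one_le_wS S z
  have h3 : 0 ≤ (1 + ‖z‖) ^ (-(3 / 2) : ℝ) := by positivity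
  calc (1 + ‖z‖) ^ (-(3 / 2) : ℝ) = 1 * (1 + ‖z‖) ^ (-(3 / 2) : ℝ) * 1 := by ring
    _ ≤ _ := mul_le_mul (mul_le_mul_of_nonneg_right h1 h3) h2 zero_le_one (by positivity)

theorem wt_nonneg (S : Finset ℝ) (z : ℂ) : 0 ≤ wt S z :=
  le_trans (by positivity) (rpow_le_wt S z)

/-- the kernel -/
theorem dist_conj {z ζ : ℂ} (hz : 0 < z.im) (hζ : 0 ≤ ζ.im) :
    1 + ‖ζ‖ ≤ ((1 + ‖z‖) / z.im + 1) * ‖ζ - (starRingEnd ℂ) z‖ := by
  have h1 : z.im ≤ ‖ζ - (starRingEnd ℂ) z‖ := by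
    have := Complex.abs_im_le_norm (ζ - (starRingEnd ℂ) z)
    rw [Complex.sub_im, Complex.conj_im, sub_neg_eq_add] at this
    exact (le_abs_self _).trans' (by linarith) |>.trans this
  have h2 : ‖ζ‖ ≤ ‖z‖ + ‖ζ - (starRingEnd ℂ) z‖ := by
    have := norm_add_le ((starRingEnd ℂ) z) (ζ - (starRingEnd ℂ) z)
    rw [Complex.norm_conj] at this
    simpa using this
  have h3 : 1 + ‖z‖ ≤ (1 + ‖z‖) / z.im * ‖ζ - (starRingEnd ℂ) z‖ := by
    rw [div_mul_eq_mul_div, le_div_iff₀ hz]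
    exact mul_le_mul_of_nonneg_left h1 (by positivity)
  linarith

theorem dist_far {z ζ : ℂ} {r : ℝ} (hr : 0 < r) (h : r ≤ ‖ζ - z‖) :
    1 + ‖ζ‖ ≤ ((1 + ‖z‖) / r + 1) * ‖ζ - z‖ := by
  have h2 : ‖ζ‖ ≤ ‖z‖ + ‖ζ - z‖ := by
    have := norm_add_le z (ζ - z)
    simpa using this
  have h3 : 1 + ‖z‖ ≤ (1 + ‖z‖) / r * ‖ζ - z‖ := by
    rw [div_mul_eq_mul_div, le_div_iff₀ hr]
    exact mul_le_mul_of_nonneg_left h (by positivity)
  linarith

/-- division by a factor of linear growth -/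
theorem div_bound {S : Finset ℝ} {ζ g k : ℂ} {A c : ℝ} (hA : 0 ≤ A) (hk : k ≠ 0)
    (h1 : 1 + ‖ζ‖ ≤ c * ‖k‖)
    (h2 : ‖g‖ ≤ A * (1 + Real.log (1 + ‖ζ‖)) * (1 + ‖ζ‖) ^ (-(1 / 2) : ℝ) * wS S ζ) :
    ‖g / k‖ ≤ A * c * wt S ζ := by
  have hk0 : 0 < ‖k‖ := norm_pos_iff.2 hk
  have h0 : (0 : ℝ) < 1 + ‖ζ‖ := by positivity
  have e : (1 + ‖ζ‖) ^ (-(1 / 2) : ℝ) = (1 + ‖ζ‖) * (1 + ‖ζ‖) ^ (-(3 / 2) : ℝ) := by
    rw [← Real.rpow_one_add' h0.le (by norm_num)]
    norm_num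
  rw [norm_div, div_le_iff₀ hk0]
  refine h2.trans ?_
  rw [e]
  have := wt_nonneg S ζ
  calc A * (1 + Real.log (1 + ‖ζ‖)) * ((1 + ‖ζ‖) * (1 + ‖ζ‖) ^ (-(3 / 2) : ℝ)) * wS S ζ
      = A * wt S ζ * (1 + ‖ζ‖) := by unfold wt; ring
    _ ≤ A * wt S ζ * (c * ‖k‖) := mul_le_mul_of_nonneg_left h1 (mul_nonneg hA this)
    _ = A * c * wt S ζ * ‖k‖ := by ring

theorem Ucm_nhds (S : Finset ℝ) {z : ℂ} (hz : z ∈ Uo) : Ucm S ∈ 𝓝 z := by
  have h1 : IsOpen Uo := isOpen_lt continuous_const Complex.continuous_im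
  exact mem_of_superset (h1.mem_nhds hz) (Uo_sub S)

theorem Uo_nhds {z : ℂ} (hz : z ∈ Uo) : Uo ∈ 𝓝 z :=
  (isOpen_lt continuous_const Complex.continuous_im).mem_nhds hz

theorem sub_conj_ne {z ζ : ℂ} (hz : 0 < z.im) (hζ : 0 ≤ ζ.im) : ζ - (starRingEnd ℂ) z ≠ 0 := by
  intro h
  have := congrArg Complex.im h
  rw [Complex.sub_im, Complex.conj_im, Complex.zero_im] at this
  linarith

theorem int_kernel {x y : ℝ} (hy : 0 < y) :
    Integrable (fun t : ℝ => y / ((t - x) ^ 2 + y ^ 2)) ∧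
      ∫ t : ℝ, y / ((t - x) ^ 2 + y ^ 2) = Real.pi := by
  have e : ∀ t : ℝ, y / ((t - x) ^ 2 + y ^ 2) = y⁻¹ * (1 + (y⁻¹ * (t - x)) ^ 2)⁻¹ := by
    intro t
    field_simp
    ring
  have h1 : Integrable fun t : ℝ => (1 + (y⁻¹ * (t - x)) ^ 2)⁻¹ :=
    (integrable_inv_one_add_sq.comp_mul_left' (inv_ne_zero hy.ne')).comp_sub_right x
  have h2 : ∫ t : ℝ, (1 + (y⁻¹ * (t - x)) ^ 2)⁻¹ = y * Real.pi := by
    rw [integral_sub_right_eq_self (fun t : ℝ => (1 + (y⁻¹ * t) ^ 2)⁻¹) x,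
      Measure.integral_comp_mul_left (fun t : ℝ => (1 + t ^ 2)⁻¹) y⁻¹,
      integral_univ_inv_one_add_sq, inv_inv, abs_of_pos hy, smul_eq_mul]
  simp only [e]
  refine ⟨h1.const_mul _, ?_⟩
  rw [integral_const_mul, h2]
  field_simp

theorem st_A3 : ST_A3 := by
  intro G S A h1 h2 h3 z hz
  have hy : 0 < z.im := hz
  set zc : ℂ := (starRingEnd ℂ) z with hzc
  set c0 : ℝ := (1 + ‖z‖) / z.im + 1 with hc0
  have hc0p : 0 < c0 := by positivity
  have h3' : ∀ ζ ∈ Ucm S, ‖G ζ‖ ≤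
      |A| * (1 + Real.log (1 + ‖ζ‖)) * (1 + ‖ζ‖) ^ (-(1 / 2) : ℝ) * wS S ζ := by
    intro ζ hζ
    refine (h3 ζ hζ).trans ?_
    have h5 := wS_nonneg S ζ
    have h4 := one_le_log ζ
    have h6 : 0 ≤ (1 + Real.log (1 + ‖ζ‖)) * (1 + ‖ζ‖) ^ (-(1 / 2) : ℝ) * wS S ζ := by positivity
    calc _ = A * ((1 + Real.log (1 + ‖ζ‖)) * (1 + ‖ζ‖) ^ (-(1 / 2) : ℝ) * wS S ζ) := by ring
      _ ≤ |A| * ((1 + Real.log (1 + ‖ζ‖)) * (1 + ‖ζ‖) ^ (-(1 / 2) : ℝ) * wS S ζ) :=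
        mul_le_mul_of_nonneg_right (le_abs_self A) h6
      _ = _ := by ring
  -- the first function
  have k1 : Integrable (fun t : ℝ => G t / ((t : ℂ) - zc)) ∧
      ∫ t : ℝ, G t / ((t : ℂ) - zc) = 0 := by
    refine st_A4 (fun ζ => G ζ / (ζ - zc)) S (|A| * c0) ?_ ?_ ?_
    · exact h1.div (by fun_prop) fun ζ hζ => sub_conj_ne hy hζ.1
    · exact h2.div (by fun_prop) fun ζ hζ => sub_conj_ne hy (le_of_lt hζ)
    · intro ζ hζ
      have := div_bound (S := S) (abs_nonneg A) (sub_conj_ne hy hζ.1) (dist_conj hy hζ.1)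
        (h3' ζ hζ)
      unfold wt at this
      calc _ ≤ _ := this
        _ = _ := by ring
  -- the second function
  have hHd : DifferentiableOn ℂ (fun ζ => G ζ * (ζ - zc)) Uo := h2.mul (by fun_prop)
  have hHc : ContinuousOn (fun ζ => G ζ * (ζ - zc)) (Ucm S) := h1.mul (by fun_prop)
  have hHz : DifferentiableAt ℂ (fun ζ => G ζ * (ζ - zc)) z := hHd.differentiableAt (Uo_nhds hz)
  have hF : ∀ ζ : ℂ, ζ ≠ z → 0 ≤ ζ.im → dslope (fun ζ => G ζ * (ζ - zc)) z ζ / (ζ - zc) =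
      G ζ / (ζ - z) - G z * (z - zc) / ((ζ - z) * (ζ - zc)) := by
    intro ζ hne hζ
    have a1 : ζ - z ≠ 0 := sub_ne_zero.2 hne
    have a2 : ζ - zc ≠ 0 := sub_conj_ne hy hζ
    rw [dslope_of_ne _ hne, slope_def_field]
    field_simp
  have hFc : ContinuousOn (fun ζ => dslope (fun ζ => G ζ * (ζ - zc)) z ζ / (ζ - zc)) (Ucm S) :=
    ((continuousOn_dslope (Ucm_nhds S hz)).2 ⟨hHc, hHz⟩).div (by fun_prop)
      fun ζ hζ => sub_conj_ne hy hζ.1
  have hball : Metric.closedBall z (z.im / 2) ⊆ Ucm S := by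
    intro ζ hζ
    refine Uo_sub S ?_
    show 0 < ζ.im
    have a1 := Complex.abs_im_le_norm (ζ - z)
    rw [Metric.mem_closedBall, dist_eq_norm] at hζ
    rw [Complex.sub_im] at a1
    have := (abs_le.1 (a1.trans hζ)).1
    linarith
  obtain ⟨M, hM⟩ := (isCompact_closedBall z (z.im / 2)).exists_bound_of_continuousOn
    (hFc.mono hball)
  have k2 : Integrable (fun t : ℝ => dslope (fun ζ => G ζ * (ζ - zc)) z t / ((t : ℂ) - zc)) ∧
      ∫ t : ℝ, dslope (fun ζ => G ζ * (ζ - zc)) z t / ((t : ℂ) - zc) = 0 := by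
    set c1 : ℝ := (1 + ‖z‖) / (z.im / 2) + 1 with hc1
    have hc1p : 0 < c1 := by positivity
    set m : ℝ := (1 + (‖z‖ + z.im / 2)) ^ (-(3 / 2) : ℝ) with hm
    have hm0 : 0 < m := by positivity
    have hM0 : 0 ≤ M := (norm_nonneg _).trans (hM z (Metric.mem_closedBall_self (by positivity)))
    set A' : ℝ := M / m + |A| * c1 + ‖G z‖ * (2 * z.im) * c0 * c1 with hA'
    refine st_A4 (fun ζ => dslope (fun ζ => G ζ * (ζ - zc)) z ζ / (ζ - zc)) S A' hFc ?_ ?_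
    · exact ((differentiableOn_dslope (Uo_nhds hz)).2 hHd).div (by fun_prop)
        fun ζ hζ => sub_conj_ne hy (le_of_lt hζ)
    · intro ζ hζ
      have hw := wt_nonneg S ζ
      have p1 : 0 ≤ M / m := by positivity
      have p2 : 0 ≤ |A| * c1 := by positivity
      have p3 : 0 ≤ ‖G z‖ * (2 * z.im) * c0 * c1 := by positivity
      suffices ‖dslope (fun ζ => G ζ * (ζ - zc)) z ζ / (ζ - zc)‖ ≤ A' * wt S ζ by
        refine this.trans (le_of_eq ?_)
        unfold wt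
        ring
      rcases le_or_gt ‖ζ - z‖ (z.im / 2) with hn | hn
      · have a1 := hM ζ (by rw [Metric.mem_closedBall, dist_eq_norm]; exact hn)
        have a2 : m ≤ (1 + ‖ζ‖) ^ (-(3 / 2) : ℝ) := by
          refine Real.rpow_le_rpow_of_nonpos (by positivity) ?_ (by norm_num)
          have := norm_add_le z (ζ - z)
          rw [add_sub_cancel] at this
          linarith
        have a3 : m ≤ wt S ζ := a2.trans (rpow_le_wt S ζ)
        calc _ ≤ M := a1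
          _ = M / m * m := by field_simp
          _ ≤ M / m * wt S ζ := mul_le_mul_of_nonneg_left a3 p1
          _ ≤ A' * wt S ζ := mul_le_mul_of_nonneg_right (by rw [hA']; linarith) hw
      · have hne : ζ ≠ z := fun h => by
          rw [h, sub_self, norm_zero] at hn
          linarith
        have hk : ζ - z ≠ 0 := sub_ne_zero.2 hne
        have hk2 : ζ - zc ≠ 0 := sub_conj_ne hy hζ.1
        rw [hF ζ hne hζ.1]
        have b1 := div_bound (S := S) (abs_nonneg A) hk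
          (dist_far (by positivity : 0 < z.im / 2) hn.le) (h3' ζ hζ)
        have b2 : ‖G z * (z - zc) / ((ζ - z) * (ζ - zc))‖ ≤
            ‖G z‖ * (2 * z.im) * c0 * c1 * wt S ζ := by
          have e1 : ‖z - zc‖ = 2 * z.im := by
            rw [hzc, Complex.sub_conj, norm_mul, norm_I, mul_one, Complex.norm_real,
              Real.norm_eq_abs, abs_of_pos (by positivity)]
          have e2 := dist_far (z := z) (ζ := ζ) (by positivity : 0 < z.im / 2) hn.le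
          have e3 := dist_conj (z := z) (ζ := ζ) hy hζ.1
          have n1 : 0 < ‖ζ - z‖ := norm_pos_iff.2 hk
          have n2 : 0 < ‖ζ - zc‖ := norm_pos_iff.2 hk2
          have h0 : (0 : ℝ) < 1 + ‖ζ‖ := by positivity
          have e4 : (1 : ℝ) ≤ (1 + ‖ζ‖) * (1 + ‖ζ‖) * (1 + ‖ζ‖) ^ (-(3 / 2) : ℝ) := by
            have : (1 + ‖ζ‖) * (1 + ‖ζ‖) * (1 + ‖ζ‖) ^ (-(3 / 2) : ℝ) =
                (1 + ‖ζ‖) ^ (1 / 2 : ℝ) := by
              rw [mul_assoc, ← Real.rpow_one_add' h0.le (by norm_num),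
                ← Real.rpow_one_add' h0.le (by norm_num)]
              norm_num
            rw [this]
            exact Real.one_le_rpow (by have := norm_nonneg ζ; linarith) (by norm_num)
          have e5 : 1 ≤ (c1 * ‖ζ - z‖) * (c0 * ‖ζ - zc‖) * wt S ζ := by
            refine e4.trans ?_
            refine mul_le_mul (mul_le_mul e2 e3 h0.le (by positivity)) (rpow_le_wt S ζ)
              (by positivity) (by positivity)
          rw [norm_div, norm_mul, norm_mul, e1, div_le_iff₀ (by positivity)]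
          calc ‖G z‖ * (2 * z.im) = ‖G z‖ * (2 * z.im) * 1 := by ring
            _ ≤ ‖G z‖ * (2 * z.im) * ((c1 * ‖ζ - z‖) * (c0 * ‖ζ - zc‖) * wt S ζ) :=
              mul_le_mul_of_nonneg_left e5 (by positivity)
            _ = _ := by ring
        calc _ ≤ ‖G ζ / (ζ - z)‖ + ‖G z * (z - zc) / ((ζ - z) * (ζ - zc))‖ := norm_sub_le _ _
          _ ≤ |A| * c1 * wt S ζ + ‖G z‖ * (2 * z.im) * c0 * c1 * wt S ζ := add_le_add b1 b2
          _ = (|A| * c1 + ‖G z‖ * (2 * z.im) * c0 * c1) * wt S ζ := by ring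
          _ ≤ A' * wt S ζ := mul_le_mul_of_nonneg_right (by rw [hA']; linarith) hw
  have hne : ∀ t : ℝ, (t : ℂ) ≠ z := fun t h => by
    have := congrArg Complex.im h
    rw [Complex.ofReal_im] at this
    linarith
  -- the kernel on the line
  have e1 : ∀ t : ℝ, G z * (z - zc) / (((t : ℂ) - z) * ((t : ℂ) - zc)) =
      G z * (2 * I) * ((z.im / ((t - z.re) ^ 2 + z.im ^ 2) : ℝ) : ℂ) := by
    intro t
    have q1 : ((t : ℂ) - z) * ((t : ℂ) - zc) = (((t - z.re) ^ 2 + z.im ^ 2 : ℝ) : ℂ) := by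
      have : (t : ℂ) - zc = (starRingEnd ℂ) ((t : ℂ) - z) := by
        rw [map_sub, Complex.conj_ofReal]
      rw [this, Complex.mul_conj, Complex.normSq_apply]
      congr 1
      simp
      ring
    have q2 : z - zc = 2 * I * (z.im : ℂ) := by
      rw [hzc, Complex.sub_conj]
      push_cast
      ring
    rw [q1, q2]
    push_cast
    ring
  obtain ⟨i1, i2⟩ := int_kernel (x := z.re) hy
  have e2 : ∀ t : ℝ, G t / ((t : ℂ) - z) =
      dslope (fun ζ => G ζ * (ζ - zc)) z t / ((t : ℂ) - zc) +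
        G z * (2 * I) * ((z.im / ((t - z.re) ^ 2 + z.im ^ 2) : ℝ) : ℂ) := by
    intro t
    rw [hF t (hne t) (by simp), ← e1]
    ring
  have i3 : Integrable fun t : ℝ =>
      G z * (2 * I) * ((z.im / ((t - z.re) ^ 2 + z.im ^ 2) : ℝ) : ℂ) := i1.ofReal.const_mul _
  have i4 : ∫ t : ℝ, ((z.im / ((t - z.re) ^ 2 + z.im ^ 2) : ℝ) : ℂ) = (Real.pi : ℂ) := by
    rw [← i2]
    exact integral_ofReal
  have k3 : Integrable (fun t : ℝ => G t / ((t : ℂ) - z)) := by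
    simp only [e2]
    exact k2.1.add i3
  have k4 : ∫ t : ℝ, G t / ((t : ℂ) - z) = 2 * Real.pi * I * G z := by
    simp only [e2]
    rw [integral_add k2.1 i3, k2.2, integral_const_mul, i4]
    ring
  have e3 : ∀ t : ℝ, (((G t).im : ℝ) : ℂ) / ((t : ℂ) - z) =
      (2 * I)⁻¹ * (G t / ((t : ℂ) - z) - (starRingEnd ℂ) (G t / ((t : ℂ) - zc))) := by
    intro t
    have q1 : (starRingEnd ℂ) (G t / ((t : ℂ) - zc)) = (starRingEnd ℂ) (G t) / ((t : ℂ) - z) := by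
      rw [map_div₀, map_sub, Complex.conj_ofReal, hzc, Complex.conj_conj]
    rw [q1, ← sub_div, Complex.sub_conj]
    have : (I : ℂ) ≠ 0 := I_ne_zero
    push_cast
    field_simp
  have k5 : Integrable (fun t : ℝ => (starRingEnd ℂ) (G t / ((t : ℂ) - zc))) :=
    (Complex.conjLIE.toContinuousLinearEquiv.toContinuousLinearMap.integrable_comp k1.1)
  refine ⟨?_, ?_⟩
  · simp only [e3]
    exact (k3.sub k5).const_mul _
  · simp only [e3]
    rw [integral_const_mul, integral_sub k3 k5, k4, integral_conj, k1.2, map_zero, sub_zero]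
    have : (I : ℂ) ≠ 0 := I_ne_zero
    have hpi : (Real.pi : ℂ) ≠ 0 := by exact_mod_cast Real.pi_ne_zero
    push_cast
    field_simp

end

end Pool.Agent.Helper72.CV.A3
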