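import Pool.Agent.Helper36.CV.StmtsP

set_option autoImplicit false

/-! # A4: shifting the line of integration, square root singularities -/

namespace Pool.Agent.Helper72.CV.A4

open Pool.Agent.Helper36.CV Complex Filter Topology MeasureTheory Set

noncomputable section

/-- the majorant -/
def bd (S : Finset ℝ) (t : ℝ) : ℝ :=
  (1 + ‖t‖) ^ (-(11 / 8) : ℝ) + ∑ s ∈ S, ((1 + ‖t‖) ^ (-(11 / 8) : ℝ) +
    (Icc (s - 1) (s + 1)).indicator (fun t : ℝ => |t - s| ^ (-(1 / 2) : ℝ)) t)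

theorem int_dec : Integrable (fun t : ℝ => (1 + ‖t‖) ^ (-(11 / 8) : ℝ)) :=
  integrable_one_add_norm (by norm_num)

theorem int_sing (s : ℝ) :
    Integrable ((Icc (s - 1) (s + 1)).indicator (fun t : ℝ => |t - s| ^ (-(1 / 2) : ℝ))) := by
  rw [integrable_indicator_iff measurableSet_Icc]
  have h1 : IntervalIntegrable (fun u : ℝ => |u| ^ (-(1 / 2) : ℝ)) volume 0 1 := by
    refine (intervalIntegral.intervalIntegrable_rpow' (a := 0) (b := 1)
      (r := (-(1 / 2) : ℝ)) (by norm_num)).congr ?_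
    intro u hu
    rw [uIoc_of_le zero_le_one] at hu
    simp only [abs_of_pos hu.1]
  have h2 : IntervalIntegrable (fun u : ℝ => |u| ^ (-(1 / 2) : ℝ)) volume (-1) 0 := by
    rw [IntervalIntegrable.iff_comp_neg]
    simp only [abs_neg, neg_neg, neg_zero]
    exact h1.symm
  have h3 := (h2.trans h1).comp_sub_right s
  rw [show -1 + s = s - 1 by ring, show 1 + s = s + 1 by ring] at h3
  exact (intervalIntegrable_iff_integrableOn_Icc_of_le (by linarith)).1 h3

theorem int_bd (S : Finset ℝ) : Integrable (bd S) :=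
  int_dec.add (integrable_finsetSum _ fun s _ => int_dec.add (int_sing s))

theorem bd_nonneg (S : Finset ℝ) (t : ℝ) : 0 ≤ bd S t := by
  unfold bd
  refine add_nonneg (by positivity) (Finset.sum_nonneg fun s _ => add_nonneg (by positivity) ?_)
  exact indicator_nonneg (fun t _ => by positivity) t

theorem log_bd (N : ℝ) (hN : 0 ≤ N) :
    (1 + Real.log (1 + N)) * (1 + N) ^ (-(3 / 2) : ℝ) ≤ 9 * (1 + N) ^ (-(11 / 8) : ℝ) := by
  have h0 : 0 < 1 + N := by linarith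
  have h1 : Real.log (1 + N) ≤ 8 * (1 + N) ^ (1 / 8 : ℝ) := by
    have := Real.log_le_rpow_div h0.le (show (0 : ℝ) < 1 / 8 by norm_num)
    linarith
  have h2 : 1 ≤ (1 + N) ^ (1 / 8 : ℝ) := Real.one_le_rpow (by linarith) (by norm_num)
  have h3 : (1 + N) ^ (-(11 / 8) : ℝ) = (1 + N) ^ (1 / 8 : ℝ) * (1 + N) ^ (-(3 / 2) : ℝ) := by
    rw [← Real.rpow_add h0]
    norm_num
  rw [h3, ← mul_assoc]
  exact mul_le_mul_of_nonneg_right (by linarith) (by positivity)

theorem norm_ge (t δ : ℝ) : |t| ≤ ‖(t : ℂ) + δ * I‖ := by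
  have h := Complex.abs_re_le_norm ((t : ℂ) + δ * I)
  simpa using h

theorem norm_ge_im (t δ : ℝ) : |δ| ≤ ‖(t : ℂ) + δ * I‖ := by
  have h := Complex.abs_im_le_norm ((t : ℂ) + δ * I)
  simpa using h

theorem wS_le (S : Finset ℝ) (t δ : ℝ) (ht : t ∉ S) :
    wS S ((t : ℂ) + δ * I) ≤ 1 + ∑ s ∈ S, |t - s| ^ (-(1 / 2) : ℝ) := by
  unfold wS
  refine add_le_add_right (Finset.sum_le_sum fun s hs => ?_) 1
  have h1 : (0 : ℝ) < |t - s| := abs_pos.2 (sub_ne_zero.2 fun h => ht (h ▸ hs))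
  refine Real.rpow_le_rpow_of_nonpos h1 ?_ (by norm_num)
  have := norm_ge (t - s) δ
  rw [show (t : ℂ) + δ * I - ((s : ℝ) : ℂ) = ((t - s : ℝ) : ℂ) + δ * I by push_cast; ring]
  exact this

theorem wS_nonneg (S : Finset ℝ) (z : ℂ) : 0 ≤ wS S z := by
  unfold wS
  positivity

theorem main_bd (S : Finset ℝ) (t δ : ℝ) (ht : t ∉ S) :
    (1 + Real.log (1 + ‖(t : ℂ) + δ * I‖)) * (1 + ‖(t : ℂ) + δ * I‖) ^ (-(3 / 2) : ℝ) *
      wS S ((t : ℂ) + δ * I) ≤ 9 * bd S t := by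
  have h1 := log_bd ‖(t : ℂ) + δ * I‖ (norm_nonneg _)
  have h2 : (1 + ‖(t : ℂ) + δ * I‖) ^ (-(11 / 8) : ℝ) ≤ (1 + ‖t‖) ^ (-(11 / 8) : ℝ) :=
    Real.rpow_le_rpow_of_nonpos (by positivity)
      (by have := norm_ge t δ; rw [Real.norm_eq_abs]; linarith) (by norm_num)
  have h3 := wS_le S t δ ht
  have h4 : (1 + ‖t‖) ^ (-(11 / 8) : ℝ) * (1 + ∑ s ∈ S, |t - s| ^ (-(1 / 2) : ℝ)) ≤ bd S t := by
    unfold bd
    rw [mul_add, mul_one, Finset.mul_sum]
    refine add_le_add_right (Finset.sum_le_sum fun s hs => ?_) _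
    have a1 : (1 + ‖t‖) ^ (-(11 / 8) : ℝ) ≤ 1 :=
      Real.rpow_le_one_of_one_le_of_nonpos (by have := norm_nonneg t; linarith) (by norm_num)
    have a0 : 0 ≤ (1 + ‖t‖) ^ (-(11 / 8) : ℝ) := by positivity
    by_cases hst : t ∈ Icc (s - 1) (s + 1)
    · rw [indicator_of_mem hst]
      have : 0 ≤ |t - s| ^ (-(1 / 2) : ℝ) := by positivity
      nlinarith
    · rw [indicator_of_notMem hst, add_zero]
      have : 1 ≤ |t - s| := by
        rw [mem_Icc, not_and_or, not_le, not_le] at hst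
        rcases hst with h | h
        · rw [abs_of_neg (by linarith)]
          linarith
        · rw [abs_of_pos (by linarith)]
          linarith
      exact mul_le_of_le_one_right a0 (Real.rpow_le_one_of_one_le_of_nonpos this (by norm_num))
  calc _ ≤ 9 * (1 + ‖(t : ℂ) + δ * I‖) ^ (-(11 / 8) : ℝ) * wS S ((t : ℂ) + δ * I) :=
        mul_le_mul_of_nonneg_right h1 (wS_nonneg _ _)
    _ ≤ 9 * (1 + ‖t‖) ^ (-(11 / 8) : ℝ) * (1 + ∑ s ∈ S, |t - s| ^ (-(1 / 2) : ℝ)) := by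
        refine mul_le_mul (by linarith) h3 (wS_nonneg _ _) (by positivity)
    _ = 9 * ((1 + ‖t‖) ^ (-(11 / 8) : ℝ) * (1 + ∑ s ∈ S, |t - s| ^ (-(1 / 2) : ℝ))) := by ring
    _ ≤ 9 * bd S t := by linarith

theorem ae_notMem (S : Finset ℝ) : ∀ᵐ t : ℝ, t ∉ S := by
  have : volume (S : Set ℝ) = 0 := S.finite_toSet.measure_zero _
  exact measure_eq_zero_iff_ae_notMem.1 this

/-- the data used for shifting the line of integration -/
structure Hyp (G : ℂ → ℂ) (S : Finset ℝ) (C : ℝ) : Prop where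
  cont : ContinuousOn G (Ucm S)
  diff : DifferentiableOn ℂ G Uo
  nn : 0 ≤ C
  bound : ∀ t δ : ℝ, 0 ≤ δ → t ∉ S → ‖G ((t : ℂ) + δ * I)‖ ≤ C * bd S t
  far : ∀ t : ℝ, t ∉ S → ∃ B : ℝ, ∀ δ : ℝ, 0 < δ →
    ‖G ((t : ℂ) + δ * I)‖ ≤ B * (1 + δ) ^ (-(11 / 8) : ℝ)
  side : ∀ x δ : ℝ, 0 < δ → (∀ s ∈ S, |s| + 1 ≤ |x|) →
    ‖G ((x : ℂ) + δ * I)‖ ≤ C * (1 + |x|) ^ (-(11 / 8) : ℝ)

theorem mem_Ucm (S : Finset ℝ) (t δ : ℝ) (hδ : 0 ≤ δ) (ht : t ∉ S) :
    (t : ℂ) + δ * I ∈ Ucm S := by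
  refine ⟨by simpa using hδ, fun s hs h => ht ?_⟩
  have := congrArg Complex.re h
  simp at this
  rwa [this]

theorem mem_Uo (t δ : ℝ) (hδ : 0 < δ) : (t : ℂ) + δ * I ∈ Uo := by
  show 0 < ((t : ℂ) + δ * I).im
  simpa using hδ

theorem Uo_sub (S : Finset ℝ) : Uo ⊆ Ucm S := fun z hz => ⟨le_of_lt hz, fun s _ h => by
  have h1 : 0 < z.im := hz
  rw [h] at h1
  simp at h1⟩

theorem mk_hyp (G : ℂ → ℂ) (S : Finset ℝ) (A : ℝ) (h1 : ContinuousOn G (Ucm S))
    (h2 : DifferentiableOn ℂ G Uo)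
    (h3 : ∀ z ∈ Ucm S, ‖G z‖ ≤
      A * (1 + Real.log (1 + ‖z‖)) * (1 + ‖z‖) ^ (-(3 / 2) : ℝ) * wS S z) :
    Hyp G S (9 * |A| * (1 + S.card)) := by
  have h3' : ∀ z ∈ Ucm S, ‖G z‖ ≤
      |A| * ((1 + Real.log (1 + ‖z‖)) * (1 + ‖z‖) ^ (-(3 / 2) : ℝ) * wS S z) := by
    intro z hz
    refine (h3 z hz).trans ?_
    have h4 : 0 ≤ Real.log (1 + ‖z‖) := Real.log_nonneg (by have := norm_nonneg z; linarith)
    have h5 := wS_nonneg S z
    have h6 : 0 ≤ (1 + Real.log (1 + ‖z‖)) * (1 + ‖z‖) ^ (-(3 / 2) : ℝ) * wS S z := by positivity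
    calc _ = A * ((1 + Real.log (1 + ‖z‖)) * (1 + ‖z‖) ^ (-(3 / 2) : ℝ) * wS S z) := by ring
      _ ≤ _ := mul_le_mul_of_nonneg_right (le_abs_self A) h6
  have hc : (0 : ℝ) ≤ S.card := Nat.cast_nonneg _
  have hA : 0 ≤ |A| := abs_nonneg A
  have key : ∀ z ∈ Ucm S, ‖G z‖ ≤ 9 * |A| * (1 + ‖z‖) ^ (-(11 / 8) : ℝ) * wS S z := by
    intro z hz
    refine (h3' z hz).trans ?_
    have h7 := mul_le_mul_of_nonneg_right (log_bd ‖z‖ (norm_nonneg z)) (wS_nonneg S z)
    calc _ ≤ |A| * (9 * (1 + ‖z‖) ^ (-(11 / 8) : ℝ) * wS S z) :=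
          mul_le_mul_of_nonneg_left h7 hA
      _ = _ := by ring
  refine ⟨h1, h2, by positivity, fun t δ hδ ht => ?_, fun t ht => ?_, fun x δ hδ hx => ?_⟩
  · refine (h3' _ (mem_Ucm S t δ hδ ht)).trans ?_
    have h4 := mul_le_mul_of_nonneg_left (main_bd S t δ ht) hA
    have h5 := bd_nonneg S t
    have h6 : |A| * (9 * bd S t) ≤ 9 * |A| * (1 + S.card) * bd S t := by
      have : 0 ≤ |A| * bd S t * S.card := by positivity
      nlinarith
    exact h4.trans h6
  · refine ⟨9 * |A| * (1 + ∑ s ∈ S, |t - s| ^ (-(1 / 2) : ℝ)), fun δ hδ => ?_⟩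
    refine (key _ (mem_Ucm S t δ hδ.le ht)).trans ?_
    have h4 := wS_le S t δ ht
    have h5 : (1 + ‖(t : ℂ) + δ * I‖) ^ (-(11 / 8) : ℝ) ≤ (1 + δ) ^ (-(11 / 8) : ℝ) :=
      Real.rpow_le_rpow_of_nonpos (by positivity)
        (by have := norm_ge_im t δ; rw [abs_of_pos hδ] at this; linarith) (by norm_num)
    calc _ ≤ 9 * |A| * (1 + δ) ^ (-(11 / 8) : ℝ) * (1 + ∑ s ∈ S, |t - s| ^ (-(1 / 2) : ℝ)) :=
          mul_le_mul (mul_le_mul_of_nonneg_left h5 (by positivity)) h4 (wS_nonneg _ _)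
            (by positivity)
      _ = _ := by ring
  · have hxS : x ∉ S := fun h => by have := hx x h; linarith
    refine (key _ (mem_Ucm S x δ hδ.le hxS)).trans ?_
    have h4 : wS S ((x : ℂ) + δ * I) ≤ 1 + S.card := by
      refine (wS_le S x δ hxS).trans ?_
      refine add_le_add_right ?_ 1
      rw [← nsmul_one, ← Finset.sum_const]
      refine Finset.sum_le_sum fun s hs => ?_
      refine Real.rpow_le_one_of_one_le_of_nonpos ?_ (by norm_num)
      have := hx s hs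
      have := abs_sub_abs_le_abs_sub x s
      linarith
    have h5 : (1 + ‖(x : ℂ) + δ * I‖) ^ (-(11 / 8) : ℝ) ≤ (1 + |x|) ^ (-(11 / 8) : ℝ) :=
      Real.rpow_le_rpow_of_nonpos (by positivity)
        (by have := norm_ge x δ; linarith) (by norm_num)
    calc _ ≤ 9 * |A| * (1 + |x|) ^ (-(11 / 8) : ℝ) * (1 + S.card) :=
          mul_le_mul (mul_le_mul_of_nonneg_left h5 (by positivity)) h4 (wS_nonneg _ _)
            (by positivity)
      _ = _ := by ring

variable {G : ℂ → ℂ} {S : Finset ℝ} {C : ℝ}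

theorem Hyp.cont_line (h : Hyp G S C) {δ : ℝ} (hδ : 0 < δ) :
    Continuous fun t : ℝ => G ((t : ℂ) + δ * I) := by
  have h1 : ContinuousOn G Uo := h.cont.mono (Uo_sub S)
  rw [← continuousOn_univ]
  exact h1.comp (by fun_prop) fun t _ => mem_Uo t δ hδ

theorem Hyp.int_line (h : Hyp G S C) {δ : ℝ} (hδ : 0 < δ) :
    Integrable fun t : ℝ => G ((t : ℂ) + δ * I) := by
  refine ((int_bd S).const_mul C).mono' (h.cont_line hδ).aestronglyMeasurable ?_
  filter_upwards [ae_notMem S] with t ht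
  exact h.bound t δ hδ.le ht

theorem tendsto_dec : Tendsto (fun x : ℝ => (1 + x) ^ (-(11 / 8) : ℝ)) atTop (𝓝 0) :=
  (tendsto_rpow_neg_atTop (by norm_num : (0 : ℝ) < 11 / 8)).comp
    (tendsto_atTop_add_const_left _ _ tendsto_id)

theorem Hyp.shift (h : Hyp G S C) {δ T : ℝ} (hδ : 0 < δ) (hT : δ ≤ T) :
    ∫ t : ℝ, G ((t : ℂ) + δ * I) = ∫ t : ℝ, G ((t : ℂ) + T * I) := by
  have hT0 : 0 < T := hδ.trans_le hT
  have e : ∀ R : ℝ, (((∫ x : ℝ in (-R)..R, G (x + δ * I)) - ∫ x : ℝ in (-R)..R, G (x + T * I)) +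
      I • ∫ y : ℝ in δ..T, G (R + y * I)) - I • ∫ y : ℝ in δ..T, G (((-R : ℝ) : ℂ) + y * I) = 0 := by
    intro R
    have h0 := integral_boundary_rect_eq_zero_of_differentiableOn G (⟨-R, δ⟩ : ℂ) ⟨R, T⟩
      (h.diff.mono fun z hz => by
        have h1 := hz.2
        simp only [mem_preimage, uIcc_of_le hT] at h1
        exact hδ.trans_le h1.1)
    exact h0
  have t1 := intervalIntegral_tendsto_integral (h.int_line hδ) tendsto_neg_atTop_atBot
    tendsto_id
  have t2 := intervalIntegral_tendsto_integral (h.int_line hT0) tendsto_neg_atTop_atBot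
    tendsto_id
  have side : ∀ u : ℝ → ℝ, (∀ R, |u R| = |R|) →
      Tendsto (fun R : ℝ => I • ∫ y : ℝ in δ..T, G ((u R : ℂ) + y * I)) atTop (𝓝 0) := by
    intro u hu
    have hz : Tendsto (fun R : ℝ => C * (1 + R) ^ (-(11 / 8) : ℝ) * |T - δ|) atTop (𝓝 0) := by
      have := (tendsto_dec.const_mul C).mul_const |T - δ|
      simpa using this
    refine squeeze_zero_norm' ?_ hz
    filter_upwards [eventually_ge_atTop (1 + ∑ s ∈ S, |s|)] with R hR
    have hs0 : 0 ≤ ∑ s ∈ S, |s| := Finset.sum_nonneg fun _ _ => abs_nonneg _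
    have hR0 : |R| = R := abs_of_nonneg (by linarith)
    rw [norm_smul, norm_I, one_mul]
    refine intervalIntegral.norm_integral_le_of_norm_le_const fun y hy => ?_
    rw [uIoc_of_le hT] at hy
    have := h.side (u R) y (hδ.trans hy.1) fun s hs => by
      rw [hu, hR0]
      have := Finset.single_le_sum (f := fun s : ℝ => |s|) (fun _ _ => abs_nonneg _) hs
      linarith
    rwa [hu, hR0] at this
  have t3 := side id fun _ => rfl
  have t4 := side (fun R => -R) fun R => abs_neg R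
  have t5 := ((t1.sub t2).add t3).sub t4
  have t6 := tendsto_nhds_unique (t5.congr fun R => e R) tendsto_const_nhds
  rw [add_zero, sub_zero] at t6
  exact sub_eq_zero.1 t6

theorem Hyp.line_zero (h : Hyp G S C) {δ : ℝ} (hδ : 0 < δ) :
    ∫ t : ℝ, G ((t : ℂ) + δ * I) = 0 := by
  have t1 : Tendsto (fun T : ℝ => ∫ t : ℝ, G ((t : ℂ) + T * I)) atTop (𝓝 (∫ _ : ℝ, (0 : ℂ))) := by
    refine tendsto_integral_filter_of_dominated_convergence (fun t => C * bd S t) ?_ ?_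
      ((int_bd S).const_mul C) ?_
    · filter_upwards [eventually_gt_atTop 0] with T hT
      exact (h.cont_line hT).aestronglyMeasurable
    · filter_upwards [eventually_ge_atTop 0] with T hT
      filter_upwards [ae_notMem S] with t ht
      exact h.bound t T hT ht
    · filter_upwards [ae_notMem S] with t ht
      obtain ⟨B, hB⟩ := h.far t ht
      refine squeeze_zero_norm' (a := fun T : ℝ => B * (1 + T) ^ (-(11 / 8) : ℝ)) ?_ ?_
      · filter_upwards [eventually_gt_atTop 0] with T hT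
        exact hB T hT
      · simpa using tendsto_dec.const_mul B
  rw [integral_zero] at t1
  refine tendsto_nhds_unique (tendsto_const_nhds.congr' ?_) t1
  filter_upwards [eventually_ge_atTop δ] with T hT
  exact h.shift hδ hT

theorem Hyp.integrable (h : Hyp G S C) : Integrable fun t : ℝ => G t := by
  refine ((int_bd S).const_mul C).mono' ?_ ?_
  · have h1 : ContinuousOn (fun t : ℝ => G t) ((S : Set ℝ)ᶜ) :=
      h.cont.comp (by fun_prop) fun t ht => by
        have := mem_Ucm S t 0 le_rfl ht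
        simpa using this
    have h2 := h1.aestronglyMeasurable (μ := volume) S.finite_toSet.measurableSet.compl
    have h3 : volume.restrict ((S : Set ℝ)ᶜ) = volume :=
      Measure.restrict_eq_self_of_ae_mem (ae_notMem S)
    rwa [h3] at h2
  · filter_upwards [ae_notMem S] with t ht
    have := h.bound t 0 le_rfl ht
    simpa using this

theorem Hyp.zero (h : Hyp G S C) : ∫ t : ℝ, G t = 0 := by
  have t1 : Tendsto (fun δ : ℝ => ∫ t : ℝ, G ((t : ℂ) + δ * I)) (𝓝[>] 0) (𝓝 (∫ t : ℝ, G t)) := by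
    refine tendsto_integral_filter_of_dominated_convergence (fun t => C * bd S t) ?_ ?_
      ((int_bd S).const_mul C) ?_
    · filter_upwards [self_mem_nhdsWithin] with T hT
      exact (h.cont_line hT).aestronglyMeasurable
    · filter_upwards [self_mem_nhdsWithin] with T hT
      filter_upwards [ae_notMem S] with t ht
      exact h.bound t T (le_of_lt hT) ht
    · filter_upwards [ae_notMem S] with t ht
      have h0 : (t : ℂ) + (0 : ℝ) * I ∈ Ucm S := mem_Ucm S t 0 le_rfl ht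
      have h1 := (h.cont _ h0).tendsto
      have h2 : Tendsto (fun δ : ℝ => (t : ℂ) + δ * I) (𝓝[>] 0) (𝓝[Ucm S] ((t : ℂ) + (0 : ℝ) * I)) := by
        refine tendsto_nhdsWithin_iff.2 ⟨?_, ?_⟩
        · have : Continuous fun δ : ℝ => (t : ℂ) + δ * I := by fun_prop
          exact (this.tendsto 0).mono_left nhdsWithin_le_nhds
        · filter_upwards [self_mem_nhdsWithin] with δ hδ
          exact mem_Ucm S t δ (le_of_lt hδ) ht
      have h3 : Tendsto (fun δ : ℝ => G ((t : ℂ) + δ * I)) (𝓝[>] 0)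
          (𝓝 (G ((t : ℂ) + (0 : ℝ) * I))) := h1.comp h2
      simpa using h3
  refine tendsto_nhds_unique (t1.congr' ?_) tendsto_const_nhds
  filter_upwards [self_mem_nhdsWithin] with δ hδ
  exact h.line_zero hδ

theorem st_A4 : ST_A4 := fun G S A h1 h2 h3 =>
  ⟨(mk_hyp G S A h1 h2 h3).integrable, (mk_hyp G S A h1 h2 h3).zero⟩

end

end Pool.Agent.Helper72.CV.A4
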