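import Pool.Agent.Helper36.CV.StmtsR

set_option autoImplicit false

/-! # R12: in case I the gap V0 is the nearest violator of Y -/

namespace Pool.Agent.Helper72.CV.R12

open Pool.Agent.Helper36.CV Complex Filter Topology MeasureTheory Set

noncomputable section

variable {Hm Hp : ℝ} {C : Set ℝ} {cd : CD Hm Hp C}

/-- a point of the gap in the ball -/
theorem meets_pt (V : Gap cd) {x d : ℝ} (hd : 0 ≤ d) (h : V.Meets x d) :
    ∃ t ∈ Icc V.a V.b, |t - x| ≤ d := by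
  refine ⟨max V.a (x - d), ⟨le_max_left _ _, max_le V.lt.le h.2⟩, ?_⟩
  rw [abs_le]
  constructor
  · have := le_max_right V.a (x - d)
    linarith
  · have : max V.a (x - d) ≤ x + d := max_le h.1 (by linarith)
    linarith

theorem abs_c (V : Gap cd) {t : ℝ} (ht : t ∈ Icc V.a V.b) : |V.c - t| ≤ V.s / 2 := by
  obtain ⟨h1, h2⟩ := ht
  unfold Gap.c Gap.s
  rw [abs_le]
  constructor <;> linarith

theorem s_pos (V : Gap cd) : 0 < V.s := by
  unfold Gap.s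
  linarith [V.lt]

theorem dist_nonneg (V : Gap cd) (x : ℝ) : 0 ≤ V.dist x := le_max_left _ _

theorem meets_of_dist (V : Gap cd) {x d : ℝ} (h : V.dist x ≤ d) : V.Meets x d := by
  unfold Gap.dist at h
  have h1 := (le_max_right 0 (max (V.a - x) (x - V.b))).trans h
  have h2 := (le_max_left (V.a - x) (x - V.b)).trans h1
  have h3 := (le_max_right (V.a - x) (x - V.b)).trans h1
  exact ⟨by linarith, by linarith⟩

theorem dist_left (V : Gap cd) {x : ℝ} (h : V.b < x) : V.dist x = x - V.b := by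
  unfold Gap.dist
  rw [max_eq_right, max_eq_right]
  · linarith [V.lt]
  · exact (by linarith : (0 : ℝ) ≤ x - V.b).trans (le_max_right _ _)

theorem dist_right (V : Gap cd) {x : ℝ} (h : x < V.a) : V.dist x = V.a - x := by
  unfold Gap.dist
  rw [max_eq_right, max_eq_left]
  · linarith [V.lt]
  · exact (by linarith : (0 : ℝ) ≤ V.a - x).trans (le_max_left _ _)

/-- size of the gaps near `x` -/
theorem size (hP1 : ST_P1) (hP2 : ST_P2) (hQ1 : ST_Q1) (hQ4 : ST_Q4) {ε K : ℝ}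
    (hpar : Par ε Hm Hp) (hε : ε ≤ 1 / 10 ^ 10) (hK : 1 ≤ K) (hεK : ε ≤ 1 / (3 * 10 ^ 4 * K ^ 2))
    (V0 : Gap cd) (h1000 : 1000 ≤ |V0.mu|)
    (H7 : ∀ (V : Gap cd) (R x y : ℝ), V0.LW R → V0.s ≤ R → V ≠ V0 → x = |V.c - V0.c| →
      K * x ≤ R → y = x - V0.s / 2 → 0 < y ∧
      V.s * (1 - |V.N - V0.N| * (|V0.mu| + |V.N - V0.N|)) * x ≤
      ε / 2 * (1 + 98 * ε) * (1 + K * (ε + (x / R) ^ (9 / 10 : ℝ))) * (x ^ 2 - (V0.s / 2) ^ 2))
    {x ρ D M : ℝ} (hρ : 0 < ρ) (hD : D = x - V0.b) (hD0 : 0 < D) (hM : M = max ρ D)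
    (hD16 : D ≤ ρ / (16 * ε)) (hρs : ρ ≤ 115 / 100 * (ε * V0.s))
    (hv : |V0.mu| * Yf cd x M ≤ ε ^ (2 / 5 : ℝ)) (V : Gap cd) (hV : V ≠ V0)
    (hVM : V.Meets x M) :
    V.s ≤ 14 / 100 * ρ ∧ |V.N - V0.N| ≤ 12 * Yf cd x M ∧
      |V.N - V0.N| * (|V0.mu| + |V.N - V0.N|) ≤ 24 / 10000 := by
  have hε0 : 0 < ε := hpar.1
  have hs0 : 0 < V0.s := s_pos V0
  have hMρ : ρ ≤ M := hM ▸ le_max_left _ _
  have hMD : D ≤ M := hM ▸ le_max_right _ _
  have hM0 : 0 < M := hρ.trans_le hMρ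
  obtain ⟨p1, p2, p3, p4, p5, p6⟩ := hP1 Hm Hp C cd
  have hYM : 0 < Yf cd x M := (p3 x M M hM0 le_rfl).1
  have hM16 : M ≤ ρ / (16 * ε) := by
    rw [hM]
    refine max_le ?_ hD16
    rw [le_div_iff₀ (by positivity)]
    nlinarith
  have hM16' : 16 * ε * M ≤ ρ := by
    rw [le_div_iff₀ (by positivity)] at hM16
    linarith
  have hD16' : 16 * ε * D ≤ ρ := by
    rw [le_div_iff₀ (by positivity)] at hD16
    linarith
  have hMs : M ≤ 72 / 1000 * V0.s := by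
    have h1 : 16 * ε * M ≤ 115 / 100 * (ε * V0.s) := hM16'.trans hρs
    have h2 : ε * (16 * M) ≤ ε * (115 / 100 * V0.s) := by linarith
    have h3 := le_of_mul_le_mul_left h2 hε0
    linarith
  have hDs : D ≤ 72 / 1000 * V0.s := hMD.trans hMs
  obtain ⟨t, ht, htx⟩ := meets_pt V hM0.le hVM
  have hV0b : V0.b ∈ Icc V0.a V0.b := ⟨V0.lt.le, le_rfl⟩
  have hNt : Nf cd t = V.N := V.lab t ht
  have hN0 : Nf cd V0.b = V0.N := V0.lab _ hV0b
  have hdN : |V.N - V0.N| ≤ 12 * Yf cd x M := by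
    rw [← hNt, ← hN0]
    refine p6 x M t V0.b hM0 htx ?_
    rw [abs_le]
    constructor <;> linarith
  have hxc : |x - V0.c| = D + V0.s / 2 := by
    have : x - V0.c = D + V0.s / 2 := by
      rw [hD]
      unfold Gap.c Gap.s
      ring
    rw [this, abs_of_pos (by positivity)]
  obtain ⟨q1, q2, q3, q4⟩ := hQ4 ε Hm Hp C cd hpar (hε.trans (by norm_num))
  have hLW := q3 V0 h1000
  have hss : V0.s ≤ V0.s / (4 * ε) := by
    rw [le_div_iff₀ (by positivity)]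
    nlinarith
  have hεs : 65 / 100 * V0.s ≤ V0.s / (4 * ε) := by linarith
  have hwin : |V.N - V0.N| * (|V0.mu| + 1) ≤ 9 / 10 := by
    rw [← hNt]
    refine hLW t ?_
    have : |t - V0.c| ≤ |t - x| + |x - V0.c| := abs_sub_le _ _ _
    linarith
  have hdN1 : |V.N - V0.N| ≤ 1 := by
    have h1 := abs_nonneg (V.N - V0.N)
    nlinarith
  have hprod : |V.N - V0.N| * |V0.mu| ≤ 12 / 10000 := by
    have h1 : ε ^ (2 / 5 : ℝ) ≤ 1 / 10000 := by
      have h2 : ε ^ (2 / 5 : ℝ) ≤ (1 / 10 ^ 10 : ℝ) ^ (2 / 5 : ℝ) :=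
        Real.rpow_le_rpow hε0.le hε (by norm_num)
      have h3 : (1 / 10 ^ 10 : ℝ) ^ (2 / 5 : ℝ) = 1 / 10000 := by
        have : (1 / 10 ^ 10 : ℝ) = (1 / 10000 : ℝ) ^ (5 / 2 : ℝ) := by
          rw [show (1 / 10000 : ℝ) = (1 / 100 : ℝ) ^ (2 : ℝ) by norm_num,
            ← Real.rpow_mul (by norm_num)]
          norm_num
        rw [this, ← Real.rpow_mul (by norm_num)]
        norm_num
      rw [h3] at h2
      exact h2
    have h4 : |V.N - V0.N| * |V0.mu| ≤ 12 * Yf cd x M * |V0.mu| :=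
      mul_le_mul_of_nonneg_right hdN (abs_nonneg _)
    nlinarith
  have hq : |V.N - V0.N| * (|V0.mu| + |V.N - V0.N|) ≤ 24 / 10000 := by
    have h1 : |V.N - V0.N| * |V.N - V0.N| ≤ |V.N - V0.N| * |V0.mu| :=
      mul_le_mul_of_nonneg_left (by linarith) (abs_nonneg _)
    have : |V.N - V0.N| * (|V0.mu| + |V.N - V0.N|) =
        |V.N - V0.N| * |V0.mu| + |V.N - V0.N| * |V.N - V0.N| := by ring
    linarith
  obtain ⟨r1, r2, r3, r4, r5, r6, r7, r8, r9, r10, r11, r12⟩ := hP2 Hm Hp C cd hpar.2.1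
  have hdisj : ∀ t' ∈ Icc V.a V.b, t' ∉ Icc V0.a V0.b := by
    intro t' ht' ht0
    rcases lt_trichotomy V.a V0.a with h | h | h
    · have := (r5 V V0 h).1
      linarith [ht'.2, ht0.1]
    · exact hV (r6 V V0 h)
    · have := (r5 V0 V h).1
      linarith [ht'.1, ht0.2]
  have hvV : ∀ t' ∈ Icc V.a V.b, vf cd t' ≤ 36 * ε * Yf cd x M := by
    intro t' ht'
    have hN' : Nf cd t' = V.N := V.lab t' ht'
    have h1 := (q4 V0 t' (by rw [hN']; exact hwin)).2.2.1 (hdisj t' ht')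
    rw [hN'] at h1
    nlinarith
  obtain ⟨s1, s2⟩ := hQ1 Hm Hp C cd hpar.2.1 V x M (36 * ε * Yf cd x M) hM0 hVM hvV (by nlinarith)
  have hsV : V.s ≤ 378 * ε * M := by
    have h1 : V.s * Yf cd x M ≤ 378 * ε * M * Yf cd x M := by linarith
    exact le_of_mul_le_mul_right h1 hYM
  have hsV' : V.s ≤ 1 / 100 * M := by nlinarith
  have hcx : |V.c - x| ≤ 1005 / 1000 * M := by
    have h1 := abs_c V ht
    have h2 : |V.c - x| ≤ |V.c - t| + |t - x| := abs_sub_le _ _ _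
    linarith
  obtain ⟨X, hX⟩ : ∃ X, X = |V.c - V0.c| := ⟨_, rfl⟩
  have hXle : X ≤ 1005 / 1000 * M + D + V0.s / 2 := by
    have h2 : |V.c - V0.c| ≤ |V.c - x| + |x - V0.c| := abs_sub_le _ _ _
    rw [hX]
    linarith
  have hXs : X ≤ 65 / 100 * V0.s := by linarith
  have hX0 : 0 ≤ X := hX ▸ abs_nonneg _
  have hK2 : 1 ≤ K ^ 2 := one_le_pow₀ hK
  have hεK' : ε * (3 * 10 ^ 4 * K ^ 2) ≤ 1 := by
    rwa [le_div_iff₀ (by positivity)] at hεK
  have hKε : K * ε ≤ 1 / 1000 := by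
    have : ε * K ≤ ε * K ^ 2 := mul_le_mul_of_nonneg_left (by nlinarith) hε0.le
    nlinarith
  have hKX : K * X ≤ V0.s / (4 * ε) := by
    rw [le_div_iff₀ (by positivity)]
    have h1 : K * X * (4 * ε) = 4 * (K * ε) * X := by ring
    rw [h1]
    nlinarith
  obtain ⟨hy, h4⟩ := H7 V (V0.s / (4 * ε)) X (X - V0.s / 2) hLW hss hV hX hKX rfl
  have hXR : X / (V0.s / (4 * ε)) ≤ 26 / 10 * ε := by
    rw [div_le_iff₀ (by positivity)]
    have : 26 / 10 * ε * (V0.s / (4 * ε)) = 65 / 100 * V0.s := by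
      field_simp
      ring
    rw [this]
    exact hXs
  have hXR0 : 0 ≤ X / (V0.s / (4 * ε)) := by positivity
  have hpow : (X / (V0.s / (4 * ε))) ^ (9 / 10 : ℝ) ≤ 1 / (100 * K) := by
    have h1 : (X / (V0.s / (4 * ε))) ^ (9 / 10 : ℝ) ≤ (X / (V0.s / (4 * ε))) ^ (1 / 2 : ℝ) := by
      refine Real.rpow_le_rpow_of_exponent_ge' hXR0 (by linarith) (by norm_num) (by norm_num)
    have h2 : (X / (V0.s / (4 * ε))) ^ (1 / 2 : ℝ) ≤ 1 / (100 * K) := by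
      rw [← Real.sqrt_eq_rpow]
      refine (Real.sqrt_le_sqrt hXR).trans ?_
      rw [Real.sqrt_le_left (by positivity)]
      rw [div_pow, one_pow, le_div_iff₀ (by positivity)]
      nlinarith
    exact h1.trans h2
  have hT2 : K * (ε + (X / (V0.s / (4 * ε))) ^ (9 / 10 : ℝ)) ≤ 11 / 1000 := by
    have h1 : K * (X / (V0.s / (4 * ε))) ^ (9 / 10 : ℝ) ≤ K * (1 / (100 * K)) :=
      mul_le_mul_of_nonneg_left hpow (by linarith)
    have h2 : K * (1 / (100 * K)) = 1 / 100 := by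
      field_simp
    rw [mul_add]
    linarith
  obtain ⟨T, hT⟩ : ∃ T, T = (1 + 98 * ε) * (1 + K * (ε + (X / (V0.s / (4 * ε))) ^ (9 / 10 : ℝ))) :=
    ⟨_, rfl⟩
  have hTle : T ≤ 1013 / 1000 := by
    rw [hT]
    have h1 : (1 + 98 * ε) * (1 + K * (ε + (X / (V0.s / (4 * ε))) ^ (9 / 10 : ℝ))) ≤
        (1 + 98 * ε) * (1 + 11 / 1000) := mul_le_mul_of_nonneg_left (by linarith) (by positivity)
    nlinarith
  have hT0 : 0 ≤ T := by
    rw [hT]
    positivity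
  obtain ⟨q, hqd⟩ : ∃ q, q = |V.N - V0.N| * (|V0.mu| + |V.N - V0.N|) := ⟨_, rfl⟩
  rw [← hqd] at h4 hq
  have hX00 : 0 < X := by linarith
  have e1 : V.s * (1 - q) * X ≤ ε / 2 * T * (X ^ 2 - (V0.s / 2) ^ 2) := by
    rw [hT]
    calc _ ≤ _ := h4
      _ = _ := by ring
  have e2 : X ^ 2 - (V0.s / 2) ^ 2 ≤ 2 * X * (X - V0.s / 2) := by nlinarith
  have e3 : ε / 2 * T * (X ^ 2 - (V0.s / 2) ^ 2) ≤ ε / 2 * T * (2 * X * (X - V0.s / 2)) :=
    mul_le_mul_of_nonneg_left e2 (by positivity)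
  have e4 : V.s * (1 - q) ≤ ε * T * (X - V0.s / 2) := by
    refine le_of_mul_le_mul_right ?_ hX00
    calc V.s * (1 - q) * X ≤ ε / 2 * T * (2 * X * (X - V0.s / 2)) := e1.trans e3
      _ = ε * T * (X - V0.s / 2) * X := by ring
  have hsV0 : 0 < V.s := s_pos V
  have e5 : V.s * (9976 / 10000) ≤ V.s * (1 - q) :=
    mul_le_mul_of_nonneg_left (by linarith) hsV0.le
  have e6 : ε * T * (X - V0.s / 2) ≤ 1013 / 1000 * (ε * (X - V0.s / 2)) := by
    have : 0 ≤ ε * (X - V0.s / 2) := by positivity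
    nlinarith
  have e7 : ε * (X - V0.s / 2) ≤ 1254 / 10000 * ρ := by
    have h1 : ε * (X - V0.s / 2) ≤ ε * (1005 / 1000 * M + D) :=
      mul_le_mul_of_nonneg_left (by linarith) hε0.le
    nlinarith
  refine ⟨by nlinarith, hdN, hqd ▸ hq⟩

/-! ### reflection -/

theorem wit_symm {ε0 : ℝ} (hR0 : ∀ ε a b l r : ℝ, 0 < ε → ε ≤ ε0 → a < b → l < r →
    (Wit ε a b l r ↔ Wit ε (-b) (-a) (-r) (-l))) {ε a b l r : ℝ} (hε : 0 < ε) (hε0 : ε ≤ ε0)
    (hab : a < b) (hlr : l < r) (h : Wit ε a b l r) : Wit ε (-b) (-a) (-r) (-l) :=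
  (hR0 ε a b l r hε hε0 hab hlr).1 h

theorem kids_symm {ε cK τ l r l0 r0 l1 r1 l2 r2 : ℝ} (h : Kids ε cK τ l r l0 r0 l1 r1 l2 r2) :
    Kids ε cK (-τ) (-r) (-l) (-r2) (-l2) (-r1) (-l1) (-r0) (-l0) := by
  obtain ⟨h1, h2, h3, h4, h5, h6, h7, h8⟩ := h
  refine ⟨by linarith, ?_, by linarith, by linarith, ?_, ?_, ?_, ?_⟩
  · rcases h2 with h | h | h
    · exact Or.inr (Or.inr (by linarith))
    · exact Or.inr (Or.inl (by linarith))
    · exact Or.inl (by linarith)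
  · have e1 : -l2 - -r2 - ε * (1 + 2 * ε * -τ) * (-l - -r) =
        r2 - l2 - ε * (1 - 2 * ε * τ) * (r - l) := by ring
    have e2 : cK * ε ^ 3 * (-l - -r) = cK * ε ^ 3 * (r - l) := by ring
    rw [e1, e2]
    exact h6
  · have e1 : -l0 - -r0 - ε * (1 - 2 * ε * -τ) * (-l - -r) =
        r0 - l0 - ε * (1 + 2 * ε * τ) * (r - l) := by ring
    have e2 : cK * ε ^ 3 * (-l - -r) = cK * ε ^ 3 * (r - l) := by ring
    rw [e1, e2]
    exact h5
  · have e1 : -l1 - -r1 - 4 * ε ^ 2 * (-l - -r) = r1 - l1 - 4 * ε ^ 2 * (r - l) := by ring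
    have e2 : cK * ε ^ 3 * (-l - -r) = cK * ε ^ 3 * (r - l) := by ring
    rw [e1, e2]
    exact h7
  · have e1 : (-l1 + -r1) / 2 - (-l + -r) / 2 - 3 / 4 * -τ * ε * (-l - -r) =
        -((r1 + l1) / 2 - (r + l) / 2 - 3 / 4 * τ * ε * (r - l)) := by ring
    have e2 : cK * ε ^ 2 * (-l - -r) = cK * ε ^ 2 * (r - l) := by ring
    rw [e1, e2, abs_neg]
    exact h8

theorem mem_Icc_neg {V : Gap cd} {C' : Set ℝ} {cd' : CD Hm Hp C'} {V' : Gap cd'}
    (ha : V'.a = -V.b) (hb : V'.b = -V.a) {x d : ℝ} : V'.Meets (-x) d ↔ V.Meets x d := by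
  unfold Gap.Meets
  rw [ha, hb]
  constructor <;> rintro ⟨h1, h2⟩ <;> constructor <;> linarith

theorem dist_neg {V : Gap cd} {C' : Set ℝ} {cd' : CD Hm Hp C'} {V' : Gap cd'}
    (ha : V'.a = -V.b) (hb : V'.b = -V.a) (x : ℝ) : V'.dist (-x) = V.dist x := by
  unfold Gap.dist
  rw [ha, hb, max_comm (-V.b - -x)]
  congr 2 <;> ring

theorem kids_len {ε cK τ l r l0 r0 l1 r1 l2 r2 : ℝ} (hε0 : 0 < ε) (hε : ε ≤ 1 / 10 ^ 10)
    (hcK : cK * ε ≤ 1 / 1000) (h : Kids ε cK τ l r l0 r0 l1 r1 l2 r2) : l0 < r0 ∧ l2 < r2 := by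
  obtain ⟨h1, h2, h3, h4, h5, h6, h7, h8⟩ := h
  have hρ : 0 < r - l := by linarith
  have hτ : |τ| ≤ 1 := by
    rcases h2 with h | h | h <;> rw [h] <;> norm_num
  have h9 : cK * ε ^ 3 * (r - l) ≤ 1 / 1000 * ε ^ 2 * (r - l) := by
    have : cK * ε ^ 3 = (cK * ε) * ε ^ 2 := by ring
    rw [this]
    exact mul_le_mul_of_nonneg_right (mul_le_mul_of_nonneg_right hcK (by positivity)) hρ.le
  have h10 : 1 / 1000 * ε ^ 2 * (r - l) ≤ 1 / 10 * (ε * (r - l)) := by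
    have : ε ^ 2 ≤ ε := by nlinarith
    nlinarith
  have h11 : 0 < ε * (r - l) := by positivity
  have h12 : |2 * ε * τ| ≤ 1 / 10 := by
    rw [abs_mul, abs_of_pos (by positivity)]
    nlinarith
  obtain ⟨h13, h14⟩ := abs_le.1 h12
  have e1 := (abs_le.1 h5).1
  have e2 := (abs_le.1 h6).1
  have e3 : ε * (1 + 2 * ε * τ) * (r - l) = ε * (r - l) + 2 * ε * τ * (ε * (r - l)) := by ring
  have e4 : ε * (1 - 2 * ε * τ) * (r - l) = ε * (r - l) - 2 * ε * τ * (ε * (r - l)) := by ring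
  rw [e3] at e1
  rw [e4] at e2
  constructor <;> nlinarith

/-- the main part: the nearest violator is not closer than `V0` -/
theorem near_aux (hP1 : ST_P1) (hP2 : ST_P2) (hMR : ST_MR) {ε cK e3 e7 : ℝ}
    (hpar : Par ε Hm Hp) (hε : ε ≤ 1 / 10 ^ 10) (hε3 : ε ≤ e3) (hε7 : ε ≤ e7)
    (hcK : cK * ε ≤ 1 / 1000) {eR : ℝ} (hεR : ε ≤ eR)
    (hR0 : ∀ ε a b l r : ℝ, 0 < ε → ε ≤ eR → a < b → l < r →
      (Wit ε a b l r ↔ Wit ε (-b) (-a) (-r) (-l)))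
    (hR3 : ∀ (ε Hm Hp : ℝ) (C : Set ℝ) (cd : CD Hm Hp C), Par ε Hm Hp → ε ≤ e3 →
      ∀ (τ l r l0 r0 l1 r1 l2 r2 : ℝ) (VL VR : Gap cd),
      Pair cd ε cK τ l r l0 r0 l1 r1 l2 r2 VL VR →
      (∀ V : Gap cd, ¬ NV ε ((l + r) / 2) (r - l) V → 7 / 5 * (r - l) < V.dist ((l + r) / 2)))
    (hR7 : ∀ (ε Hm Hp : ℝ) (C : Set ℝ) (cd : CD Hm Hp C), Par ε Hm Hp → ε ≤ e7 →
      ∀ (τ l r l0 r0 l1 r1 l2 r2 : ℝ) (VL VR : Gap cd),
      Pair cd ε cK τ l r l0 r0 l1 r1 l2 r2 VL VR →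
      ∀ (D : ℝ) (V0 : Gap cd), NL cd ε ((l + r) / 2) (r - l) D V0 →
      D ≤ ε ^ (-(9 / 10) : ℝ) * (r - l) → D ≤ ε ^ (1 / 20 : ℝ) * V0.s)
    {τ l r l0 r0 l1 r1 l2 r2 : ℝ} {VL VR : Gap cd}
    (hpair : Pair cd ε cK τ l r l0 r0 l1 r1 l2 r2 VL VR) (V0 : Gap cd) {x ρ D M : ℝ}
    (hx : x = (l + r) / 2) (hρe : ρ = r - l) (hD : D = x - V0.b) (hD0 : 0 < D)
    (hM : M = max ρ D) (hD16 : D ≤ ρ / (16 * ε)) (h1000 : 1000 ≤ |V0.mu|)
    (hv : |V0.mu| * Yf cd x M ≤ ε ^ (2 / 5 : ℝ))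
    (hsize : ∀ V : Gap cd, V ≠ V0 → V.Meets x M → V.s ≤ 14 / 100 * ρ ∧
      |V.N - V0.N| ≤ 12 * Yf cd x M ∧ |V.N - V0.N| * (|V0.mu| + |V.N - V0.N|) ≤ 24 / 10000)
    (V : Gap cd) (hV : ¬ NV ε x ρ V) : D ≤ V.dist x := by
  by_contra hcon
  push Not at hcon
  have hε0 : 0 < ε := hpar.1
  have hρ : 0 < ρ := by
    rw [hρe]
    linarith [hpair.kids.lt]
  obtain ⟨p1, p2, p3, p4, p5, p6⟩ := hP1 Hm Hp C cd
  obtain ⟨z1, z2, z3, z4, z5, z6, z7, z8, z9, z10, z11, z12⟩ := hP2 Hm Hp C cd hpar.2.1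
  have hε1 : ε ≤ 1 := hε.trans (by norm_num)
  -- violators have bounded labels
  have hbd : ∀ W : Gap cd, ¬ NV ε x ρ W → |W.mu| ≤ ε ^ (2 / 5 : ℝ) / Yf cd x ρ := by
    intro W hW
    unfold NV at hW
    push Not at hW
    have hm : ρ ≤ max ρ (W.dist x) := le_max_left _ _
    obtain ⟨y1, y2, -⟩ := p3 x ρ _ hρ hm
    have hsq : 1 ≤ Real.sqrt (max ρ (W.dist x) / ρ) := by
      rw [Real.one_le_sqrt, one_le_div hρ]
      exact hm
    rw [le_div_iff₀ y1]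
    have a0 := abs_nonneg W.mu
    calc |W.mu| * Yf cd x ρ = |W.mu| * 1 * Yf cd x ρ := by ring
      _ ≤ |W.mu| * Real.sqrt (max ρ (W.dist x) / ρ) * Yf cd x (max ρ (W.dist x)) :=
        mul_le_mul (mul_le_mul_of_nonneg_left hsq a0) y2 y1.le (by positivity)
      _ ≤ ε ^ (2 / 5 : ℝ) := hW.le
  have hfin : {W : Gap cd | ¬ NV ε x ρ W}.Finite :=
    (z11 (ε ^ (2 / 5 : ℝ) / Yf cd x ρ)).subset fun W hW => hbd W hW
  obtain ⟨V1, hV1, hmin⟩ := Set.exists_min_image _ (fun W : Gap cd => W.dist x) hfin ⟨V, hV⟩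
  have hmin' : ∀ W : Gap cd, ¬ NV ε x ρ W → V1.dist x ≤ W.dist x := fun W hW => hmin W hW
  have hD1D : V1.dist x < D := (hmin V hV).trans_lt hcon
  have hV0b : V0.b < x := by linarith
  have hV0d : V0.dist x = D := by rw [dist_left V0 hV0b, hD]
  have hne : V1 ≠ V0 := by
    rintro rfl
    linarith
  have h3 := hR3 ε Hm Hp C cd hpar hε3 τ l r l0 r0 l1 r1 l2 r2 VL VR hpair V1
  rw [← hx, ← hρe] at h3
  have h75 := h3 hV1
  obtain ⟨D1, hD1⟩ : ∃ D1, D1 = V1.dist x := ⟨_, rfl⟩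
  rw [← hD1] at h75 hD1D
  have hD1ρ : ρ < D1 := by linarith
  have hD10 : 0 < D1 := hρ.trans hD1ρ
  have hMD : M = D := by
    rw [hM]
    exact max_eq_right (by linarith)
  obtain ⟨g1, g2, g3⟩ := hsize V1 hne (meets_of_dist V1 (by rw [← hD1, hMD]; exact hD1D.le))
  rcases le_or_gt D1 (ε ^ (-(9 / 10) : ℝ) * ρ) with hc | hc
  · -- R7
    have key : D1 ≤ ε ^ (1 / 20 : ℝ) * V1.s := by
      by_cases hl : V1.b < x
      · have := hR7 ε Hm Hp C cd hpar hε7 τ l r l0 r0 l1 r1 l2 r2 VL VR hpair D1 V1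
        rw [← hx, ← hρe] at this
        refine this ⟨hl, ?_, hV1, fun W hW => hD1 ▸ hmin' W hW⟩ hc
        rw [hD1, dist_left V1 hl]
      · have hrt : x < V1.a := by
          by_contra hcc
          push Not at hcc hl
          have : V1.dist x = 0 := by
            unfold Gap.dist
            exact max_eq_left (max_le (by linarith) (by linarith))
          linarith
        obtain ⟨cd', m1, m2, m3, e, m4⟩ := hMR Hm Hp C cd hpar.2.1
        have hNV : ∀ W : Gap cd, NV ε (-x) ρ (e W) ↔ NV ε x ρ W := by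
          intro W
          obtain ⟨w1, w2, w3, w4, w5, w6⟩ := m4 W
          unfold NV
          rw [dist_neg w1 w2 x, m3 (-x) _ (hρ.trans_le (le_max_left _ _)), neg_neg]
          have : |(e W).mu| = |W.mu| := by
            unfold Gap.mu
            rw [w3]
            push_cast
            rw [mul_neg, abs_neg]
          rw [this]
        have hgood : Good cd' ε (-r) (-l) := by
          obtain ⟨hin, hbig⟩ := hpair.good
          refine ⟨fun t ht => ?_, fun W hW => ?_⟩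
          · have e1 : |-t - (l + r) / 2| = |t - (-r + -l) / 2| := by
              rw [← abs_neg]
              congr 1
              ring
            have := hin (-t) (by rw [e1]; convert ht using 1; ring)
            rw [m2]
            constructor <;> linarith [this.1, this.2]
          · obtain ⟨W', rfl⟩ := e.surjective W
            obtain ⟨w1, w2, w3, w4, w5, w6⟩ := m4 W'
            have e2 : (-r + -l) / 2 = -((l + r) / 2) := by ring
            have e3 : -l - -r = r - l := by ring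
            rw [e2, e3, mem_Icc_neg w1 w2] at hW
            have := hbig W' hW
            have hmu : |(e W').mu| = |W'.mu| := by
              unfold Gap.mu
              rw [w3]
              push_cast
              rw [mul_neg, abs_neg]
            rwa [hmu]
        have hkids := hpair.kids
        have hlen2 := hkids.lt
        have hs : ∀ W : Gap cd, (e W).s = W.s := by
          intro W
          obtain ⟨w1, w2, -⟩ := m4 W
          unfold Gap.s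
          rw [w1, w2]
          ring
        have hwit : ∀ (W : Gap cd) (l' r' : ℝ), l' < r' → Wit ε W.a W.b l' r' →
            Wit ε (e W).a (e W).b (-r') (-l') := by
          intro W l' r' hlr hW
          obtain ⟨w1, w2, -⟩ := m4 W
          rw [w1, w2]
          exact (hR0 ε W.a W.b l' r' hε0 hεR W.lt hlr).1 hW
        obtain ⟨hl0, hl2⟩ := kids_len hε0 hε hcK hkids
        have hpair' : Pair cd' ε cK (-τ) (-r) (-l) (-r2) (-l2) (-r1) (-l1) (-r0) (-l0)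
            (e VR) (e VL) :=
          ⟨kids_symm hkids, hgood, fun h => hpair.ne (e.injective h).symm,
            hwit VR l2 r2 hl2 hpair.wR, hwit VL l0 r0 hl0 hpair.wL,
            by rw [hs]; linarith [hpair.sR], by rw [hs]; linarith [hpair.sL]⟩
        have ex : (-r + -l) / 2 = -x := by rw [hx]; ring
        have eρ : -l - -r = ρ := by rw [hρe]; ring
        have h7 := hR7 ε Hm Hp (-C) cd' hpar hε7 (-τ) (-r) (-l) (-r2) (-l2) (-r1) (-l1) (-r0)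
          (-l0) (e VR) (e VL) hpair' D1 (e V1)
        rw [ex, eρ, hs] at h7
        obtain ⟨w1, w2, -⟩ := m4 V1
        refine h7 ⟨by rw [w2]; linarith, ?_, fun h => hV1 ((hNV V1).1 h), ?_⟩ hc
        · rw [w2, hD1, dist_right V1 hrt]
          ring
        · intro W hW
          obtain ⟨W', rfl⟩ := e.surjective W
          obtain ⟨w1', w2', -⟩ := m4 W'
          rw [dist_neg w1' w2', hD1]
          exact hmin' W' fun h => hW ((hNV W').2 h)
    have h20 : ε ^ (1 / 20 : ℝ) ≤ 1 := Real.rpow_le_one hε0.le hε1 (by norm_num)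
    have hs1 := s_pos V1
    nlinarith
  · -- arithmetic
    have h8 := z8 V1 V0 hne
    have hmu : |V1.mu - V0.mu| ≤ |V1.mu| + |V0.mu| := abs_sub _ _
    have hdn0 := abs_nonneg (V1.N - V0.N)
    have h9 : 9976 / 10000 ≤ |V1.N - V0.N| * |V1.mu| := by
      have : |V1.N - V0.N| * (|V1.N - V0.N| + |V1.mu - V0.mu|) ≤
          |V1.N - V0.N| * (|V1.N - V0.N| + (|V1.mu| + |V0.mu|)) :=
        mul_le_mul_of_nonneg_left (by linarith) hdn0
      nlinarith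
    have hnv : ¬ NV ε x ρ V1 := hV1
    unfold NV at hnv
    push Not at hnv
    rw [← hD1, max_eq_right hD1ρ.le] at hnv
    have hsq : 1 ≤ Real.sqrt (D1 / ρ) := by
      rw [Real.one_le_sqrt, one_le_div hρ]
      exact hD1ρ.le
    obtain ⟨y1, y2, y3⟩ := p3 x D1 D hD10 hD1D.le
    have hmu0 := abs_nonneg V1.mu
    have h10 : |V1.mu| * Yf cd x D1 ≤ ε ^ (2 / 5 : ℝ) := by
      refine le_trans ?_ hnv.le
      calc |V1.mu| * Yf cd x D1 = |V1.mu| * 1 * Yf cd x D1 := by ring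
        _ ≤ _ := mul_le_mul_of_nonneg_right (mul_le_mul_of_nonneg_left hsq hmu0) y1.le
    have h11 : Yf cd x D * D1 ≤ Yf cd x D1 * D := by
      rw [div_le_div_iff₀ hD0 hD10] at y3
      exact y3
    have h12 : 16 * ε * D ≤ ρ := by
      rw [le_div_iff₀ (by positivity)] at hD16
      linarith
    have h13 : ρ ≤ ε ^ (9 / 10 : ℝ) * D1 := by
      have e1 : ε ^ (-(9 / 10) : ℝ) = (ε ^ (9 / 10 : ℝ))⁻¹ := Real.rpow_neg hε0.le _
      rw [e1, inv_mul_lt_iff₀ (by positivity)] at hc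
      exact hc.le
    have h14 : ε ^ (9 / 10 : ℝ) * ε ^ (2 / 5 : ℝ) ≤ ε := by
      rw [← Real.rpow_add hε0]
      calc ε ^ ((9 / 10 : ℝ) + 2 / 5) ≤ ε ^ (1 : ℝ) :=
            Real.rpow_le_rpow_of_exponent_ge hε0 hε1 (by norm_num)
        _ = ε := Real.rpow_one ε
    rw [hMD] at g2
    have h15 : |V1.N - V0.N| * |V1.mu| * (D1 * (16 * ε)) ≤ 12 * (D1 * ε) := by
      have b1 : |V1.N - V0.N| * |V1.mu| * D1 ≤ 12 * (Yf cd x D1 * D) * |V1.mu| := by
        calc |V1.N - V0.N| * |V1.mu| * D1 ≤ 12 * Yf cd x D * |V1.mu| * D1 :=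
              mul_le_mul_of_nonneg_right (mul_le_mul_of_nonneg_right g2 hmu0) hD10.le
          _ = 12 * (Yf cd x D * D1) * |V1.mu| := by ring
          _ ≤ 12 * (Yf cd x D1 * D) * |V1.mu| :=
            mul_le_mul_of_nonneg_right (by linarith) hmu0
      have b2 : 12 * (Yf cd x D1 * D) * |V1.mu| ≤ 12 * D * ε ^ (2 / 5 : ℝ) := by
        calc 12 * (Yf cd x D1 * D) * |V1.mu| = 12 * D * (|V1.mu| * Yf cd x D1) := by ring
          _ ≤ _ := mul_le_mul_of_nonneg_left h10 (by positivity)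
      calc |V1.N - V0.N| * |V1.mu| * (D1 * (16 * ε))
          = |V1.N - V0.N| * |V1.mu| * D1 * (16 * ε) := by ring
        _ ≤ 12 * D * ε ^ (2 / 5 : ℝ) * (16 * ε) :=
          mul_le_mul_of_nonneg_right (b1.trans b2) (by positivity)
        _ = 12 * ε ^ (2 / 5 : ℝ) * (16 * ε * D) := by ring
        _ ≤ 12 * ε ^ (2 / 5 : ℝ) * (ε ^ (9 / 10 : ℝ) * D1) :=
          mul_le_mul_of_nonneg_left (h12.trans h13) (by positivity)
        _ = 12 * D1 * (ε ^ (9 / 10 : ℝ) * ε ^ (2 / 5 : ℝ)) := by ring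
        _ ≤ 12 * D1 * ε := mul_le_mul_of_nonneg_left h14 (by positivity)
        _ = 12 * (D1 * ε) := by ring
    have h16 : 0 < D1 * ε := by positivity
    nlinarith

theorem st_R12 (hP1 : ST_P1) (hP2 : ST_P2) (hQ1 : ST_Q1) (hQ4 : ST_Q4) (hQ7 : ST_Q7)
    (hR0 : ST_R0) (hR3 : ST_R3) (hR7 : ST_R7) (hR11 : ST_R11) (hMR : ST_MR) : ST_R12 := by
  intro cK hcK
  obtain ⟨K, e7, hK, he7, H7⟩ := hQ7
  obtain ⟨eR, heR, HR0⟩ := hR0
  obtain ⟨e3, he3, HR3⟩ := hR3 cK hcK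
  obtain ⟨e7', he7', HR7⟩ := hR7 cK hcK
  obtain ⟨e11, he11, HR11⟩ := hR11 cK hcK
  refine ⟨min (min (min e7 eR) (min e3 e7')) (min e11 (min (1 / 10 ^ 10)
    (min (1 / (3 * 10 ^ 4 * K ^ 2)) (1 / (1000 * cK))))), by positivity, ?_⟩
  intro ε Hm Hp C cd hpar hε τ0 l r l0 r0 l1 r1 l2 r2 k0 s0 k1 s1 k2 s2 V0 hC1 VL VR hWL hWR
  simp only [le_min_iff] at hε
  obtain ⟨⟨⟨hε7, hεR⟩, hε3, hε7'⟩, hε11, hε10, hεK, hεc⟩ := hε
  have hε0 : 0 < ε := hpar.1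
  have hcK' : cK * ε ≤ 1 / 1000 := by
    rw [le_div_iff₀ (by positivity)] at hεc
    linarith
  obtain ⟨x, hx⟩ : ∃ x, x = (l2 + r2) / 2 := ⟨_, rfl⟩
  obtain ⟨ρ, hρe⟩ : ∃ ρ, ρ = r2 - l2 := ⟨_, rfl⟩
  obtain ⟨D, hD⟩ : ∃ D, D = x - V0.b := ⟨_, rfl⟩
  obtain ⟨M, hM⟩ : ∃ M, M = max ρ D := ⟨_, rfl⟩
  have hkY := hC1.kidsY
  have hρ : 0 < ρ := by
    rw [hρe]
    linarith [hkY.lt]
  obtain ⟨a1, a2, a3, a4, a5, a6, hgood, hnL, hnR, h1000, hviol⟩ :=
    HR11 ε Hm Hp C cd hpar hε11 τ0 l r l0 r0 l1 r1 l2 r2 k0 s0 k1 s1 k2 s2 V0 hC1 x ρ D hx hρe hD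
  have hD0 : 0 < D := by linarith
  have hV0b : V0.b < x := by linarith
  have hMρ : ρ ≤ M := hM ▸ le_max_left _ _
  have hv : |V0.mu| * Yf cd x M ≤ ε ^ (2 / 5 : ℝ) := by
    obtain ⟨p1, p2, p3, -⟩ := hP1 Hm Hp C cd
    have h := hviol
    unfold NV at h
    push Not at h
    rw [dist_left V0 hV0b, ← hD, ← hM] at h
    have hsq : 1 ≤ Real.sqrt (M / ρ) := by
      rw [Real.one_le_sqrt, one_le_div hρ]
      exact hMρ
    have hY := (p3 x M M (hρ.trans_le hMρ) le_rfl).1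
    refine le_trans ?_ h.le
    calc |V0.mu| * Yf cd x M = |V0.mu| * 1 * Yf cd x M := by ring
      _ ≤ _ := mul_le_mul_of_nonneg_right (mul_le_mul_of_nonneg_left hsq (abs_nonneg _)) hY.le
  have hsize : ∀ V : Gap cd, V ≠ V0 → V.Meets x M → V.s ≤ 14 / 100 * ρ ∧
      |V.N - V0.N| ≤ 12 * Yf cd x M ∧ |V.N - V0.N| * (|V0.mu| + |V.N - V0.N|) ≤ 24 / 10000 := by
    intro V hV hVM
    refine size hP1 hP2 hQ1 hQ4 hpar hε10 hK hεK V0 h1000 ?_ hρ hD hD0 hM a3 a5 hv V hV hVM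
    intro V R x y hLW hs hne hX hKX hy
    obtain ⟨q1, q2, q3, q4⟩ := H7 ε Hm Hp C cd hpar hε7 V0 V R x y h1000 hLW hs hne hX hKX hy
    exact ⟨q1, q4⟩
  obtain ⟨hl0, hl2⟩ := kids_len hε0 hε10 hcK' hkY
  have hk0 := hkY.e0
  have hs2 := hkY.e2
  have hn0 := hkY.n0
  have hn2 := hkY.n2
  rw [← hρe] at hn0 hn2
  have hsmall : cK * ε ^ 3 * ρ ≤ 1 / 10000 * (ε * ρ) := by
    have e1 : cK * ε ^ 3 * ρ = (cK * ε) * ε * (ε * ρ) := by ring
    have h0 : 0 < ε * ρ := by positivity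
    have h2 : (cK * ε) * ε ≤ 1 / 10000 := by nlinarith
    rw [e1]
    exact mul_le_mul_of_nonneg_right h2 h0.le
  have hερ : 0 < ε * ρ := by positivity
  have hn0' : s0 - k0 ≤ 1001 / 1000 * (ε * ρ) := by
    have := (abs_le.1 hn0).2
    have e : ε * (1 + 2 * ε * 1) * ρ = ε * ρ + 2 * ε * (ε * ρ) := by ring
    rw [e] at this
    nlinarith
  have hn2' : s2 - k2 ≤ 1001 / 1000 * (ε * ρ) := by
    have := (abs_le.1 hn2).2
    have e : ε * (1 - 2 * ε * 1) * ρ = ε * ρ - 2 * ε * (ε * ρ) := by ring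
    rw [e] at this
    nlinarith
  have h16 : ∀ y : ℝ, y ≤ 1001 / 1000 * (ε * ρ) → y / (16 * ε) ≤ 63 / 1000 * ρ := by
    intro y hy
    rw [div_le_iff₀ (by positivity)]
    nlinarith
  have h16L := h16 _ hn0'
  have h16R := h16 _ hn2'
  have hερ1 : ε * ρ ≤ 1 / 1000 * ρ := by nlinarith
  obtain ⟨-, wL2, wL3, -⟩ := (HR0 ε VL.a VL.b k0 s0 hε0 hεR VL.lt hl0).2 hWL
  obtain ⟨-, wR2, wR3, -⟩ := (HR0 ε VR.a VR.b k2 s2 hε0 hεR VR.lt hl2).2 hWR
  have hVLne : VL ≠ V0 := by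
    rintro rfl
    exact hnL hWL
  have hVRne : VR ≠ V0 := by
    rintro rfl
    exact hnR hWR
  have hLa : VL.a ≤ l2 + 65 / 1000 * ρ := by linarith
  have hLb : l2 - 65 / 1000 * ρ ≤ VL.b := by linarith
  have hRa : VR.a ≤ r2 + 65 / 1000 * ρ := by linarith
  have hRb : r2 - 65 / 1000 * ρ ≤ VR.b := by linarith
  obtain ⟨sL, -, -⟩ := hsize VL hVLne ⟨by rw [hx]; linarith, by rw [hx]; linarith⟩
  obtain ⟨sR, -, -⟩ := hsize VR hVRne ⟨by rw [hx]; linarith, by rw [hx]; linarith⟩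
  have hpair : Pair cd ε cK 1 l2 r2 k0 s0 k1 s1 k2 s2 VL VR := by
    refine ⟨hkY, hgood, ?_, hWL, hWR, by rw [← hρe]; linarith, by rw [← hρe]; linarith⟩
    rintro rfl
    unfold Gap.s at sL
    linarith
  refine ⟨hpair, ?_⟩
  rw [← hx, ← hρe, ← hD]
  refine ⟨hV0b, hD, hviol, fun V hV => ?_⟩
  exact near_aux hP1 hP2 hMR hpar hε10 hε3 hε7' hcK' hεR
    (fun ε a b l r h1 h2 h3 h4 => (HR0 ε a b l r h1 h2 h3 h4).1)
    (fun ε Hm Hp C cd h1 h2 τ l r l0 r0 l1 r1 l2 r2 VL VR h3 =>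
      (HR3 ε Hm Hp C cd h1 h2 τ l r l0 r0 l1 r1 l2 r2 VL VR h3).1)
    HR7 hpair V0 hx hρe hD hD0 hM a3 h1000 hv hsize V hV

end

end Pool.Agent.Helper72.CV.R12
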